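import Mathlib
import Pool.Agent.Lib.SymZF.EvalMore

set_option autoImplicit false

open Set

namespace Pool.Agent.Lib.MP_211e54_lc

open Pool.Agent.Lib.SymZF

/-- The index set of the atoms. -/
abbrev At : Type := Finset ℕ × ℕ

/-- The dyadic partitions. -/
def r : ℕ → At → ℕ
  | 0, _ => 0
  | n + 1, a => 2 * r n a + if n ∈ a.1 then 1 else 0

lemma r_lt (n : ℕ) (a : At) : r n a < 2 ^ n := by
  induction n with
  | zero => simp [r]
  | succ n ih =>
    rw [r, pow_succ]
    split_ifs <;> omega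

lemma r_div (n : ℕ) (a : At) : r (n + 1) a / 2 = r n a := by
  rw [r]
  split_ifs <;> omega

lemma r_eq_of_eq {n : ℕ} {a b : At} (h : r (n + 1) a = r (n + 1) b) : r n a = r n b := by
  rw [← r_div n a, ← r_div n b, h]

lemma r_mono {n m : ℕ} (hnm : n ≤ m) {a b : At} (h : r m a = r m b) : r n a = r n b := by
  induction m, hnm using Nat.le_induction with
  | base => exact h
  | succ m _ ih => exact ih (r_eq_of_eq h)

lemma r_congr (n : ℕ) (a b : At) (h : ∀ k < n, k ∈ a.1 ↔ k ∈ b.1) : r n a = r n b := by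
  induction n with
  | zero => rfl
  | succ n ih =>
    rw [r, r, ih fun k hk => h k (by omega)]
    simp only [h n (by omega)]

lemma r_surj (n : ℕ) : ∀ i < 2 ^ n, ∃ s : Finset ℕ, ∀ k, r n (s, k) = i := by
  induction n with
  | zero =>
    intro i hi
    refine ⟨∅, fun k => ?_⟩
    simp only [pow_zero, Nat.lt_one_iff] at hi
    rw [hi]; rfl
  | succ n ih =>
    intro i hi
    obtain ⟨s, hs⟩ := ih (i / 2) (by rw [pow_succ] at hi; omega)
    by_cases h : i % 2 = 1
    · refine ⟨insert n s, fun k => ?_⟩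
      rw [r, r_congr n (insert n s, k) (s, k) (fun l hl => by
        simp only [Finset.mem_insert]
        constructor
        · rintro (h | h)
          · omega
          · exact h
        · exact Or.inr), hs]
      simp only [Finset.mem_insert_self, if_true]
      omega
    · refine ⟨s.erase n, fun k => ?_⟩
      rw [r, r_congr n (s.erase n, k) (s, k) (fun l hl => by
        simp only [Finset.mem_erase]
        constructor
        · exact fun h => h.2
        · exact fun h => ⟨by omega, h⟩), hs]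
      simp only [Finset.mem_erase, ne_eq, not_true_eq_false, false_and, if_false]
      omega

/-- The pieces. -/
def X (n i : ℕ) : Set At := {a | r n a + 1 = i}

lemma X_infinite (n i : ℕ) (h1 : 1 ≤ i) (h2 : i ≤ 2 ^ n) : (X n i).Infinite := by
  obtain ⟨s, hs⟩ := r_surj n (i - 1) (by omega)
  have h : Set.range (fun k : ℕ => ((s, k) : At)) ⊆ X n i := by
    rintro _ ⟨k, rfl⟩
    simp only [X, mem_ofPred_eq]
    rw [hs]; omega
  refine Set.Infinite.mono h (Set.infinite_range_of_injective ?_)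
  intro k l hkl
  exact congrArg Prod.snd hkl

/-- The group: permutations of `At × ℕ` over finitary permutations of `At`. -/
def Gr : Subgroup (Equiv.Perm (At × ℕ) × Equiv.Perm At) where
  carrier := {x | (∀ y, (x.1 y).1 = x.2 y.1) ∧ {a | x.2 a ≠ a}.Finite}
  mul_mem' := by
    rintro x y ⟨hx1, hx2⟩ ⟨hy1, hy2⟩
    refine ⟨fun z => ?_, ?_⟩
    · change (x.1 (y.1 z)).1 = x.2 (y.2 z.1)
      rw [hx1, hy1]
    · refine (hx2.union hy2).subset ?_
      intro a ha
      by_contra hcon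
      simp only [mem_union, mem_ofPred_eq, not_or, not_not] at hcon
      apply ha
      change x.2 (y.2 a) = a
      rw [hcon.2, hcon.1]
  one_mem' := ⟨fun _ => rfl, by simp⟩
  inv_mem' := by
    rintro x ⟨hx1, hx2⟩
    refine ⟨fun z => ?_, hx2.subset ?_⟩
    · change (x.1⁻¹ z).1 = x.2⁻¹ z.1
      rw [Equiv.Perm.eq_inv_iff_eq, ← hx1]
      congr 1
      exact x.1.apply_symm_apply z
    · intro a ha h
      apply ha
      change x.2⁻¹ a = a
      rw [Equiv.Perm.inv_eq_iff_eq]
      exact h.symm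

/-- The basic sets of the filter. -/
def T (E : Finset (At × ℕ)) (n : ℕ) : Set Gr :=
  {g | (∀ x ∈ E, g.1.1 x = x) ∧ ∀ a, r n (g.1.2 a) = r n a}

lemma T_inter (E E' : Finset (At × ℕ)) (n n' : ℕ) :
    T (E ∪ E') (max n n') ⊆ T E n ∩ T E' n' := by
  rintro g ⟨h1, h2⟩
  refine ⟨⟨fun x hx => h1 x (Finset.mem_union_left _ hx), fun a => r_mono (le_max_left _ _) (h2 a)⟩,
    ⟨fun x hx => h1 x (Finset.mem_union_right _ hx), fun a => r_mono (le_max_right _ _) (h2 a)⟩⟩

/-- The filter. -/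
def Fi : Filter Gr where
  sets := {s | ∃ E n, T E n ⊆ s}
  univ_sets := ⟨∅, 0, subset_univ _⟩
  sets_of_superset := by
    rintro s t ⟨E, n, h⟩ hst
    exact ⟨E, n, h.trans hst⟩
  inter_sets := by
    rintro s t ⟨E, n, h⟩ ⟨E', n', h'⟩
    exact ⟨E ∪ E', max n n', (T_inter E E' n n').trans (inter_subset_inter h h')⟩

lemma mem_Fi {s : Set Gr} : s ∈ Fi ↔ ∃ E n, T E n ⊆ s := Iff.rfl

lemma gr_fst (g : Gr) (y : At × ℕ) : (g.1.1 y).1 = g.1.2 y.1 := g.2.1 y

lemma fix_fst {g : Gr} {a : At} {k : ℕ} (h : g.1.1 (a, k) = (a, k)) : g.1.2 a = a := by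
  rw [← gr_fst g (a, k), h]

lemma Fi_conj (g : Gr) : Filter.Tendsto (fun h => g⁻¹ * h * g) Fi Fi := by
  classical
  intro s hs
  rw [Filter.mem_map]
  obtain ⟨E, n, hT⟩ := mem_Fi.1 hs
  refine mem_Fi.2 ⟨E.image g.1.1 ∪ g.2.2.toFinset.image (fun a => (a, 0)), n, ?_⟩
  rintro h ⟨h1, h2⟩
  apply hT
  have hfix : ∀ a, g.1.2 a ≠ a → h.1.2 a = a := by
    intro a ha
    apply fix_fst (k := 0)
    apply h1
    refine Finset.mem_union_right _ (Finset.mem_image.2 ⟨a, ?_, rfl⟩)
    rw [Set.Finite.mem_toFinset]; exact ha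
  refine ⟨fun x hx => ?_, fun a => ?_⟩
  · change g.1.1⁻¹ (h.1.1 (g.1.1 x)) = x
    rw [h1 (g.1.1 x) (Finset.mem_union_left _ (Finset.mem_image.2 ⟨x, hx, rfl⟩))]
    simp
  · change r n (g.1.2⁻¹ (h.1.2 (g.1.2 a))) = r n a
    by_cases ha : g.1.2 a = a
    · rw [ha]
      by_cases hc : g.1.2 (h.1.2 a) = h.1.2 a
      · have : g.1.2⁻¹ (h.1.2 a) = h.1.2 a := by rw [Equiv.Perm.inv_eq_iff_eq, hc]
        rw [this, h2]
      · have h3 := hfix _ hc
        have h4 : h.1.2 a = a := h.1.2.injective h3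
        rw [h4] at hc
        exact (hc ha).elim
    · have h3 : g.1.2 (g.1.2 a) ≠ g.1.2 a := fun h => ha (g.1.2.injective h)
      rw [hfix _ h3]
      simp

/-- The fact system. -/
def Qs : FactSys where
  K := (At × ℕ) × ℕ × Bool
  Key := (At × ℕ) × ℕ
  key x := (x.1, x.2.1)
  G := Gr
  ρ :=
    { toFun := fun g => Equiv.prodCongr g.1.1 (Equiv.refl _)
      map_one' := by ext x <;> rfl
      map_mul' := fun g h => by ext x <;> rfl }
  hρ g x y h := by
    simp only [Prod.mk.injEq] at h ⊢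
    exact ⟨congrArg g.1.1 h.1, h.2⟩
  F := Fi
  conj := Fi_conj

/-- The real system. -/
def Rs : RealSys where
  Q := Qs
  A := At
  bit x k b := (x, k, b)
  bit_key x k b x' k' b' := by
    change (x, k) = (x', k') ↔ _
    rw [Prod.mk.injEq]
  bit_ne x k h := by
    have := congrArg (fun y : (At × ℕ) × ℕ × Bool => y.2.2) h
    simp at this
  gx := (MonoidHom.fst _ _).comp Gr.subtype
  gπ := (MonoidHom.snd _ _).comp Gr.subtype
  gx_fst g x := g.2.1 x
  ρ_bit g x k b := rfl
  ev_fix x := mem_Fi.2 ⟨{x}, 0, fun g hg => hg.1 x (Finset.mem_singleton_self x)⟩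

end Pool.Agent.Lib.MP_211e54_lc
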