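import Mathlib
import Pool.Agent.Lib.MP_211e54_lc.Sys
import Pool.Agent.Lib.SymZF.DFIDefs

section

set_option autoImplicit false

open Set

namespace Pool.Agent.Lib.MP_211e54_lc

open Pool.Agent.Lib.SymZF SymSys FactSys RealSys

/-- shift of the fibre coordinates -/
def tau (m n : ℕ) : ℕ := if n < m then n + m else if n < 2 * m then n - m else n

lemma tau_tau (m n : ℕ) : tau m (tau m n) = n := by
  unfold tau
  split_ifs <;> omega

lemma tau_ge (m n : ℕ) (h : n < m) : m ≤ tau m n := by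
  unfold tau
  split_ifs; omega

/-- The swap of two atoms together with a shift of their fibres. -/
def swf (a b : At) (m : ℕ) (x : At × ℕ) : At × ℕ :=
  if x.1 = a ∨ x.1 = b then (Equiv.swap a b x.1, tau m x.2) else x

lemma swf_swf (a b : At) (m : ℕ) (x : At × ℕ) : swf a b m (swf a b m x) = x := by
  obtain ⟨c, n⟩ := x
  by_cases h : c = a ∨ c = b
  · have h' : Equiv.swap a b c = a ∨ Equiv.swap a b c = b := by
      rcases h with rfl | rfl
      · exact Or.inr (Equiv.swap_apply_left _ _)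
      · exact Or.inl (Equiv.swap_apply_right _ _)
    simp only [swf, h, if_true, h', Equiv.swap_apply_self, tau_tau]
  · simp only [swf, h, if_false]

lemma swf_fst (a b : At) (m : ℕ) (x : At × ℕ) : (swf a b m x).1 = Equiv.swap a b x.1 := by
  unfold swf
  split_ifs with h
  · rfl
  · rw [not_or] at h
    rw [Equiv.swap_apply_of_ne_of_ne h.1 h.2]

/-- The group element. -/
def sw (a b : At) (m : ℕ) : Gr :=
  ⟨(Function.Involutive.toPerm (swf a b m) (swf_swf a b m), Equiv.swap a b),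
    fun x => swf_fst a b m x, by
      refine (Set.toFinite {a, b}).subset ?_
      intro c hc
      by_contra hcon
      simp only [mem_insert_iff, mem_singleton_iff, not_or] at hcon
      exact hc (Equiv.swap_apply_of_ne_of_ne hcon.1 hcon.2)⟩

lemma exists_swap (p : Qs.P) (E : Finset (At × ℕ)) (n : ℕ) (a b : At) (ha : ∀ x ∈ E, x.1 ≠ a)
    (hb : ∀ x ∈ E, x.1 ≠ b) (hr : r n a = r n b) :
    ∃ g ∈ T E n, g.1.2 a = b ∧ Compat p (Qs.actP g p) := by
  set m := p.s.sup (fun x => x.1.2) + 1 with hm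
  have hlt : ∀ x ∈ p.s, x.1.2 < m := by
    intro x hx
    have : x.1.2 ≤ p.s.sup (fun x => x.1.2) := Finset.le_sup (f := fun x => x.1.2) hx
    omega
  refine ⟨sw a b m, ⟨fun x hx => ?_, fun c => ?_⟩, Equiv.swap_apply_left a b, ?_⟩
  · change swf a b m x = x
    unfold swf
    rw [if_neg]
    rintro (h | h)
    · exact ha x hx h
    · exact hb x hx h
  · change r n (Equiv.swap a b c) = r n c
    by_cases h1 : c = a
    · rw [h1, Equiv.swap_apply_left, hr]
    · by_cases h2 : c = b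
      · rw [h2, Equiv.swap_apply_right, hr]
      · rw [Equiv.swap_apply_of_ne_of_ne h1 h2]
  · intro x hx y hy hxy
    rw [mem_actP] at hy
    set z := Qs.ρ (sw a b m)⁻¹ y with hz
    have hy' : y = Qs.ρ (sw a b m) z := by
      rw [hz, map_inv]; simp
    rw [hy'] at hxy ⊢
    change (x.1, x.2.1) = (swf a b m z.1, z.2.1) at hxy
    rw [Prod.mk.injEq] at hxy
    by_cases h : z.1.1 = a ∨ z.1.1 = b
    · exfalso
      have h1 := hlt x hx
      have h2 := tau_ge m z.1.2 (hlt z hy)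
      rw [hxy.1] at h1
      simp only [swf, h, if_true] at h1
      omega
    · have h1 : swf a b m z.1 = z.1 := by unfold swf; rw [if_neg h]
      rw [h1] at hxy
      have h2 : x = z := p.inj x hx z hy (by
        change (x.1, x.2.1) = (z.1, z.2.1)
        rw [hxy.1, hxy.2])
      rw [h2]
      change z = (swf a b m z.1, z.2)
      rw [h1]
      rfl

/-- The set of all indices is invariant. -/
lemma univ_inv : ∀ᶠ g in Rs.Q.F, Rs.gπ g '' (univ : Set At) = univ :=
  Filter.Eventually.of_forall fun _ => Set.image_univ_of_surjective (Equiv.surjective _)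

/-- The name of the set of all atoms. -/
noncomputable def stU : Rs.S.HSet := Rs.st univ univ_inv

/-- finitely many invariant sets -/
lemma finite_inv (F : Set At) (hF : F.Finite) (n : ℕ) :
    {Y : Set At | ∀ a b, a ∉ F → b ∉ F → r n a = r n b → a ∈ Y → b ∈ Y}.Finite := by
  classical
  have hf : Finite (F : Set At) := hF
  let code : Set At → Set F × Set (Fin (2 ^ n)) := fun Y =>
    ({x | (x : At) ∈ Y}, {i | ∃ a ∉ F, r n a = i ∧ a ∈ Y})
  refine Set.Finite.of_injOn (f := code) (t := univ) (fun _ _ => mem_univ _) ?_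
    (Set.toFinite _)
  intro Y hY Z hZ h
  simp only [code, Prod.mk.injEq] at h
  have key : ∀ (Y Z : Set At), (∀ a b, a ∉ F → b ∉ F → r n a = r n b → a ∈ Z → b ∈ Z) →
      ({x : F | (x : At) ∈ Y} = {x : F | (x : At) ∈ Z}) →
      ({i : Fin (2 ^ n) | ∃ a ∉ F, r n a = i ∧ a ∈ Y} =
        {i : Fin (2 ^ n) | ∃ a ∉ F, r n a = i ∧ a ∈ Z}) → Y ⊆ Z := by
    intro Y Z hZ h1 h2 a ha
    by_cases haF : a ∈ F
    · have h3 : (⟨a, haF⟩ : F) ∈ {x : F | (x : At) ∈ Y} := ha
      rw [h1] at h3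
      exact h3
    · have h3 : (⟨r n a, r_lt n a⟩ : Fin (2 ^ n)) ∈
          {i : Fin (2 ^ n) | ∃ a ∉ F, r n a = i ∧ a ∈ Y} := ⟨a, haF, rfl, ha⟩
      rw [h2] at h3
      obtain ⟨b, hb, hrb, hbZ⟩ := h3
      exact hZ b a hb haF hrb hbZ
  exact Subset.antisymm (key Y Z hZ h.1 h.2) (key Z Y hY h.1.symm h.2.symm)

section
variable {N : Names Rs.Q.dsub} {G : Gen N}

theorem wdf (hx : ∀ a, N.has (Rs.xa a)) (hA : N.has stU) :
    WeaklyDedekindFinite G.E (G.ev stU) := by
  classical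
  rintro w PA hw hPA ⟨f, hf⟩
  have hZ := G.isZF
  obtain ⟨f0, hf0, rfl⟩ := G.ev_surj f
  -- values
  have hval : ∀ k : ℕ, ∃ y, Rel G.E (G.ev f0) (G.ev (HSet.num _ k)) y ∧ Sub G.E y (G.ev stU) := by
    intro k
    obtain ⟨y, hy, _⟩ := hf.1.2 (G.ev (HSet.num _ k)) (num_mem_omega hZ hw (Gen.isNum_ev k))
    refine ⟨y, hy, ?_⟩
    obtain ⟨p, hp, hpf⟩ := hy
    obtain ⟨a, b, _, hb, hp'⟩ := hf.1.1 p hpf
    obtain ⟨_, rfl⟩ := opair_inj hp hp'
    exact (hPA _).1 hb
  choose y hy hyA using hval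
  have huniq : ∀ k z, Rel G.E (G.ev f0) (G.ev (HSet.num _ k)) z → z = y k := fun k z hz =>
    (hf.1.2 _ (num_mem_omega hZ hw (Gen.isNum_ev k))).unique hz (hy k)
  let Y : ℕ → Set At := fun k => {a | G.E (G.ev (Rs.xa a)) (y k)}
  have hYinj : Function.Injective Y := by
    intro k l hkl
    have h1 : y k = y l := by
      apply hZ.ext
      have key : ∀ k l, Y k = Y l → ∀ z, G.E z (y k) → G.E z (y l) := by
        intro k l hkl z hz
        obtain ⟨a, _, rfl⟩ := (RealSys.E_ev_st hA hx z).1 (hyA k z hz)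
        have : a ∈ Y k := hz
        rw [hkl] at this
        exact this
      exact fun z => ⟨key k l hkl z, key l k hkl.symm z⟩
    have h2 := hy k
    rw [h1] at h2
    have h3 := hf.2 _ _ _ h2 (hy l)
    exact num_inj hZ (Gen.isNum_ev (G := G) k) (by rw [h3]; exact Gen.isNum_ev l)
  obtain ⟨E, n, hT⟩ := mem_Fi.1 f0.sym
  -- the definable relation
  obtain ⟨φ, hφ⟩ : Def (fun E v => ∃ z, Rel E (v 2) (v 1) z ∧ E (v 0) z) :=
    Def.ex (R := fun E v => Rel E (v 3) (v 2) (v 0) ∧ E (v 1) (v 0))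
      (Def.and (Def.rel _ _ _) (Def.mem _ _))
  have hφ2 : ∀ k a, a ∈ Y k ↔
      bval φ (scons (Rs.xa a) (scons (HSet.num _ k) (fun _ => f0))) ∈ G.U := by
    intro k a
    rw [← Gen.truth', hφ]
    · change _ ↔ ∃ z, Rel G.E (G.ev f0) (G.ev (HSet.num _ k)) z ∧ G.E (G.ev (Rs.xa a)) z
      constructor
      · exact fun h => ⟨y k, hy k, h⟩
      · rintro ⟨z, hz, h⟩
        rw [huniq k z hz] at h
        exact h
    · intro i
      rcases i with _ | _ | i
      · exact hx a
      · exact N.has_num k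
      · exact hf0
  have hfin := finite_inv (Prod.fst '' (E : Set (At × ℕ))) (E.finite_toSet.image _) n
  refine Set.infinite_range_of_injective hYinj (hfin.subset ?_)
  rintro _ ⟨k, rfl⟩ a b ha hb hr haY
  by_contra hbY
  rw [hφ2] at haY hbY
  have hhas : ∀ i, N.has (scons (Rs.xa b) (scons (HSet.num _ k) (fun _ => f0)) i) := by
    intro i
    rcases i with _ | _ | i
    · exact hx b
    · exact N.has_num k
    · exact hf0
  have hbY' := (G.dec' φ _ hhas).resolve_left hbY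
  obtain ⟨p, _, hp2⟩ := G.cond _ (G.inf haY hbY')
  obtain ⟨g, hgT, hgab, hcomp⟩ := exists_swap p E n a b
    (fun x hxE h => ha ⟨x, hxE, h⟩) (fun x hxE h => hb ⟨x, hxE, h⟩) hr
  have h1 : bval φ (scons (Rs.xa b) (scons (HSet.num _ k) (fun _ => f0))) =
      Rs.S.α g (bval φ (scons (Rs.xa a) (scons (HSet.num _ k) (fun _ => f0)))) := by
    apply bval_smul
    intro i _
    rcases i with _ | _ | i
    · have h2 := Rs.smul_xa g a
      have h3 : Rs.gπ g a = b := hgab
      rw [h3] at h2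
      exact h2
    · simp only [scons_succ, scons_zero]
      rw [HSet.smul_num, HSet.eq_refl]
    · exact hT hgT
  apply eb_ne_bot (FactSys.union p (Qs.actP g p) hcomp)
  rw [← le_bot_iff, eb_union]
  have h2 : eb (Qs.actP g p) ≤ bval φ (scons (Rs.xa b) (scons (HSet.num _ k) (fun _ => f0))) := by
    rw [h1, ← α_eb]
    exact (Rs.S.α g).monotone (hp2.trans inf_le_left)
  have h3 : eb p ≤ (bval φ (scons (Rs.xa b) (scons (HSet.num _ k) (fun _ => f0))))ᶜ :=
    hp2.trans inf_le_right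
  calc eb p ⊓ eb (Qs.actP g p) ≤ _ := inf_le_inf h3 h2
    _ = ⊥ := by rw [inf_comm]; exact inf_compl_self _

end

end Pool.Agent.Lib.MP_211e54_lc
end

section

set_option autoImplicit false

open Set

namespace Pool.Agent.Lib.MP_211e54_lc

open Pool.Agent.Lib.SymZF SymSys FactSys RealSys

lemma image_eq_of_iff {α : Type*} (π : Equiv.Perm α) (Y : Set α) (h : ∀ a, π a ∈ Y ↔ a ∈ Y) :
    π '' Y = Y := by
  ext a
  constructor
  · rintro ⟨b, hb, rfl⟩
    exact (h b).2 hb
  · intro ha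
    refine ⟨π.symm a, ?_, by simp⟩
    rw [← h]; simpa using ha

/-- The sets almost equal to a piece. -/
def Nr (n i : ℕ) : Type := {Y : Set At // (symmDiff Y (X n i)).Finite}

instance (n i : ℕ) : Countable (Nr n i) := by
  have h : Function.Injective (fun Y : Nr n i => Y.2.toFinset) := by
    intro Y Z hYZ
    have h1 : symmDiff Y.1 (X n i) = symmDiff Z.1 (X n i) := by
      have := congrArg (fun s : Finset At => (s : Set At)) hYZ
      simpa using this
    exact Subtype.ext (symmDiff_left_injective _ h1)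
  exact h.countable

lemma near_inv (n i : ℕ) (Y : Nr n i) : ∀ᶠ g in Rs.Q.F, Rs.gπ g '' (Y.1 : Set At) = Y.1 := by
  classical
  refine mem_Fi.2 ⟨Y.2.toFinset.image (fun a => (a, 0)), n, ?_⟩
  rintro g ⟨h1, h2⟩
  apply image_eq_of_iff (α := At) g.1.2 Y.1
  intro a
  have hfix : ∀ b ∈ symmDiff Y.1 (X n i), g.1.2 b = b := by
    intro b hb
    apply fix_fst (k := 0)
    apply h1
    refine Finset.mem_image.2 ⟨b, ?_, rfl⟩
    rw [Set.Finite.mem_toFinset]; exact hb
  have hX : g.1.2 a ∈ X n i ↔ a ∈ X n i := by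
    change r n (g.1.2 a) + 1 = i ↔ r n a + 1 = i
    rw [h2]
  by_cases ha : a ∈ symmDiff Y.1 (X n i)
  · rw [hfix a ha]
  · have ha' : g.1.2 a ∉ symmDiff Y.1 (X n i) := by
      intro h
      have h3 := hfix _ h
      have h4 := g.1.2.injective h3
      rw [h4] at h
      exact ha h
    rw [mem_symmDiff] at ha ha'
    tauto

/-- The image of a set almost equal to a piece. -/
lemma near_image (n i : ℕ) (g : Gr) (Y : Set At) (hY : (symmDiff Y (X n i)).Finite) :
    (symmDiff (g.1.2 '' Y) (X n i)).Finite := by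
  have h1 : (symmDiff (g.1.2 '' Y) (X n i)) ⊆
      g.1.2 '' (symmDiff Y (X n i)) ∪ {a | g.1.2 a ≠ a} := by
    intro a ha
    by_contra hcon
    simp only [Set.mem_union, mem_ofPred_eq, not_or, not_not] at hcon
    obtain ⟨h2, h3⟩ := hcon
    have h4 : ∀ Z : Set At, a ∈ g.1.2 '' Z ↔ a ∈ Z := by
      intro Z
      constructor
      · rintro ⟨b, hb, hba⟩
        have : b = a := g.1.2.injective (by rw [hba, h3])
        rw [← this]; exact hb
      · exact fun h => ⟨a, h, h3⟩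
    rw [mem_symmDiff, h4] at ha
    rw [h4, mem_symmDiff] at h2
    exact h2 ha
  exact ((hY.image _).union g.2.2).subset h1

/-- The name of the family of sets almost equal to a piece. -/
noncomputable def vn (n i : ℕ) : Rs.S.HSet :=
  HSet.fam (S := Rs.S) (fun Y : Nr n i => Rs.st Y.1 (near_inv n i Y)) (fun _ => ⊤)
    (Filter.Eventually.of_forall fun g => by
      have hinv : ∀ (g : Gr) (Y : Nr n i), ∃ Z : Nr n i,
          ((Rs.st Y.1 (near_inv n i Y)).smul (S := Rs.S) g).eq (Rs.st Z.1 (near_inv n i Z)) = ⊤ ∧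
            Z.1 = g.1.2 '' Y.1 := fun g Y =>
        ⟨⟨g.1.2 '' Y.1, near_image n i g Y.1 Y.2⟩, Rs.smul_st g _ _ _ _ rfl, rfl⟩
      refine ⟨fun Y => ?_, fun Y => ?_⟩
      · obtain ⟨Z, hZ, _⟩ := hinv g Y
        exact ⟨Z, hZ, le_top⟩
      · obtain ⟨Z, _, hZ⟩ := hinv g⁻¹ Y
        refine ⟨Z, ?_, by simp⟩
        refine Rs.smul_st g _ _ _ _ ?_
        rw [hZ]
        ext a
        constructor
        · rintro ⟨_, ⟨b, hb, rfl⟩, rfl⟩
          have : (Rs.gπ g) ((g⁻¹ : Gr).1.2 b) = b := by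
            change g.1.2 (g.1.2⁻¹ b) = b
            simp
          rw [this]; exact hb
        · intro ha
          refine ⟨_, ⟨a, ha, rfl⟩, ?_⟩
          change g.1.2 (g.1.2⁻¹ a) = a
          simp)

lemma smul_vn (n i : ℕ) (g : Gr) : ((vn n i).smul (S := Rs.S) g).eq (vn n i) = ⊤ := by
  have hle : ∀ (g : Gr) (z : Rs.S.HSet),
      z.mem ((vn n i).smul (S := Rs.S) g) ≤ z.mem (vn n i) := by
    intro g z
    rw [vn, HSet.mem_smul_fam, HSet.mem_fam]
    refine iSup_le fun Y => ?_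
    refine le_iSup_of_le (⟨g.1.2 '' Y.1, near_image n i g Y.1 Y.2⟩ : Nr n i) ?_
    refine le_inf le_top ?_
    have h1 := Rs.smul_st g Y.1 (g.1.2 '' Y.1) (near_inv n i Y)
      (near_inv n i ⟨g.1.2 '' Y.1, near_image n i g Y.1 Y.2⟩) rfl
    rw [HSet.eq_symm z, HSet.eq_of_eq_top_left h1, HSet.eq_symm _ z]
    exact inf_le_right
  rw [eq_top_iff]
  refine HSet.le_eq (fun z => inf_le_right.trans (hle g z)) (fun z => inf_le_right.trans ?_)
  have h2 := hle g⁻¹ (z.smul (S := Rs.S) g⁻¹)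
  have h4 := HSet.smul_mem (S := Rs.S) g⁻¹ z (vn n i)
  have h5 := h4.symm.le.trans h2
  have h3 := (Rs.S.α g).monotone h5
  have h6 := α_α_inv (S := Rs.S) g (z.mem (vn n i))
  have h7 := HSet.smul_mem (S := Rs.S) g (z.smul (S := Rs.S) g⁻¹) (vn n i)
  have h8 := HSet.smul_smul_inv (S := Rs.S) g z
  rw [h8] at h7
  rw [h7]
  exact h6.symm.le.trans h3

/-- Index type of the dyadic family. -/
def Ix : Type := {x : ℕ × ℕ // 1 ≤ x.1 ∧ 1 ≤ x.2 ∧ x.2 ≤ 2 ^ x.1}

/-- The elements of the dyadic family. -/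
noncomputable def ent (n i : ℕ) : Rs.S.HSet :=
  ((HSet.num Rs.S n).opair (HSet.num Rs.S i)).opair (vn n i)

/-- The name of the dyadic family. -/
noncomputable def Vn : Rs.S.HSet :=
  HSet.fam (S := Rs.S) (fun x : Ix => ent x.1.1 x.1.2) (fun _ => ⊤)
    (Filter.Eventually.of_forall fun g => by
      have h : ∀ n i, ((ent n i).smul (S := Rs.S) g).eq (ent n i) = ⊤ := by
        intro n i
        rw [ent, HSet.smul_opair, HSet.smul_opair, HSet.smul_num, HSet.smul_num, eq_top_iff]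
        refine le_trans ?_ (HSet.opair_congr _ _ _ _)
        rw [smul_vn, HSet.eq_refl]; simp
      exact ⟨fun x => ⟨x, h _ _, le_top⟩, fun x => ⟨x, h _ _, by simp⟩⟩)

/-- All the names that are needed. -/
def J : Type := At ⊕ Unit ⊕ Unit ⊕ (ℕ × ℕ) ⊕ (Σ x : ℕ × ℕ, Nr x.1 x.2)

instance : Countable J := inferInstanceAs
  (Countable (At ⊕ Unit ⊕ Unit ⊕ (ℕ × ℕ) ⊕ (Σ x : ℕ × ℕ, Nr x.1 x.2)))

/-- The names. -/
noncomputable def cn : J → Rs.S.HSet
  | .inl a => Rs.xa a
  | .inr (.inl _) => stU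
  | .inr (.inr (.inl _)) => Vn
  | .inr (.inr (.inr (.inl x))) => vn x.1 x.2
  | .inr (.inr (.inr (.inr ⟨x, Y⟩))) => Rs.st Y.1 (near_inv x.1 x.2 Y)

section
variable {N : Names Rs.Q.dsub} {G : Gen N}

/-- finiteness of classes of atoms -/
lemma finClass (P : G.M → Prop) (F : Set At) (hF : F.Finite)
    (hP : ∀ t, P t → ∃ a ∈ F, t = G.ev (Rs.xa a)) : FinClass G.E P := by
  have h1 : {t | P t}.Finite := by
    refine (hF.image (fun a => G.ev (Rs.xa a))).subset ?_
    intro t ht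
    obtain ⟨a, ha, rfl⟩ := hP t ht
    exact ⟨a, ha, rfl⟩
  obtain ⟨d, hd⟩ := finite_ex G.isZF h1
  refine ⟨d, hd, isFin_of_finite G.isZF ?_⟩
  have : {z | G.E z d} = {t | P t} := by ext t; exact hd t
  rw [this]; exact h1

theorem dfi (hJ : ∀ j, N.has (cn j)) : DyadicallyFilterbaseInfinite G.E (G.ev stU) := by
  classical
  have hx : ∀ a : At, N.has (Rs.xa a) := fun a => hJ (.inl a)
  have hU : N.has stU := hJ (.inr (.inl ()))
  have hV : N.has Vn := hJ (.inr (.inr (.inl ())))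
  have hv : ∀ n i, N.has (vn n i) := fun n i => hJ (.inr (.inr (.inr (.inl (n, i)))))
  have hs : ∀ n i (Y : Nr n i), N.has (Rs.st Y.1 (near_inv n i Y)) := fun n i Y =>
    hJ (.inr (.inr (.inr (.inr ⟨(n, i), Y⟩))))
  have hZ := G.isZF
  have hω := G.omegaStd
  -- membership
  have mst : ∀ n i (Y : Nr n i) (t : G.M), G.E t (G.ev (Rs.st Y.1 (near_inv n i Y))) ↔
      ∃ a ∈ Y.1, t = G.ev (Rs.xa a) := fun n i Y t => RealSys.E_ev_st (hs n i Y) hx t
  have mU : ∀ t : G.M, G.E t (G.ev stU) ↔ ∃ a, t = G.ev (Rs.xa a) := by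
    intro t
    have := RealSys.E_ev_st (G := G) (Y := univ) (hY := univ_inv) hU hx t
    refine this.trans ?_
    simp
  have mxa : ∀ n i (Y : Nr n i) (a : At),
      G.E (G.ev (Rs.xa a)) (G.ev (Rs.st Y.1 (near_inv n i Y))) ↔ a ∈ Y.1 := by
    intro n i Y a
    rw [mst]
    constructor
    · rintro ⟨b, hb, hab⟩
      rw [ev_xa_inj (hx a) (hx b) hab]; exact hb
    · exact fun h => ⟨a, h, rfl⟩
  have mv : ∀ n i (t : G.M), G.E t (G.ev (vn n i)) ↔
      ∃ Y : Nr n i, t = G.ev (Rs.st Y.1 (near_inv n i Y)) := by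
    intro n i t
    rw [vn, Gen.E_ev_fam (hv n i) (fun Y => hs n i Y)]
    simp [G.top]
  -- realization of sets near a piece
  have real : ∀ n i (Y : Set At) (hY : (symmDiff Y (X n i)).Finite), ∃ c,
      G.E c (G.ev (vn n i)) ∧ ∀ t, G.E t c ↔ ∃ a ∈ Y, t = G.ev (Rs.xa a) := fun n i Y hY =>
    ⟨_, (mv n i _).2 ⟨⟨Y, hY⟩, rfl⟩, mst n i ⟨Y, hY⟩⟩
  refine ⟨G.ev Vn, fun n i => G.ev (vn n i), ?_, ?_⟩
  · intro p
    have hent : ∀ n i, N.has (ent n i) := fun n i =>
      Names.has_opair (Names.has_opair (N.has_num n) (N.has_num i)) (hv n i)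
    rw [Vn, Gen.E_ev_fam hV (fun x => hent _ _)]
    constructor
    · rintro ⟨⟨⟨n, i⟩, h1, h2, h3⟩, _, rfl⟩
      exact ⟨n, i, h1, h2, h3, _, _, _, Gen.isNum_ev n, Gen.isNum_ev i,
        Gen.isOPair_ev (N.has_num n) (N.has_num i),
        Gen.isOPair_ev (Names.has_opair (N.has_num n) (N.has_num i)) (hv n i)⟩
    · rintro ⟨n, i, h1, h2, h3, n', i', q, hn', hi', hq, hp⟩
      refine ⟨⟨(n, i), h1, h2, h3⟩, G.top, ?_⟩
      rw [num_unique hZ hn' (Gen.isNum_ev n), num_unique hZ hi' (Gen.isNum_ev i)] at hq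
      rw [opair_unique hZ hq (Gen.isOPair_ev (N.has_num n) (N.has_num i))] at hp
      exact opair_unique hZ hp
        (Gen.isOPair_ev (Names.has_opair (N.has_num n) (N.has_num i)) (hv n i))
  · intro n hn
    refine ⟨?_, ?_, ?_, ?_⟩
    · intro i hi1 hi2
      refine ⟨?_, ?_, ?_⟩
      · obtain ⟨c, hc, _⟩ := real n i (X n i) (by simp)
        exact ⟨c, hc⟩
      · intro U hU'
        obtain ⟨Y, rfl⟩ := (mv n i U).1 hU'
        refine ⟨?_, ?_⟩
        · intro t ht
          obtain ⟨a, _, rfl⟩ := (mst n i Y t).1 ht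
          exact (mU _).2 ⟨a, rfl⟩
        · rw [isFin_iff hZ hω]
          have h1 : {z | G.E z (G.ev (Rs.st Y.1 (near_inv n i Y)))} =
              (fun a => G.ev (Rs.xa a)) '' (Y.1 : Set At) := by
            ext t
            rw [mem_ofPred_eq, mst]
            constructor
            · rintro ⟨a, ha, rfl⟩; exact ⟨a, ha, rfl⟩
            · rintro ⟨a, ha, rfl⟩; exact ⟨a, ha, rfl⟩
          rw [h1]
          have hinf : (Y.1 : Set At).Infinite := by
            intro hfin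
            apply X_infinite n i hi1 hi2
            refine (hfin.union Y.2).subset ?_
            intro a ha
            by_cases h : a ∈ Y.1
            · exact Or.inl h
            · exact Or.inr (Or.inr ⟨ha, h⟩)
          exact hinf.image (fun a _ b _ h => ev_xa_inj (hx a) (hx b) h)
      · intro U W hU' hW'
        obtain ⟨Y, rfl⟩ := (mv n i U).1 hU'
        obtain ⟨Z, rfl⟩ := (mv n i W).1 hW'
        refine ⟨?_, ?_⟩
        · obtain ⟨c, hc1, hc2⟩ := real n i (Y.1 ∪ Z.1) ((Y.2.union Z.2).subset (by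
            intro a ha
            simp only [mem_symmDiff, Set.mem_union] at ha ⊢
            tauto))
          refine ⟨c, hc1, fun t => ?_⟩
          rw [hc2, mst, mst]
          constructor
          · rintro ⟨a, ha | ha, rfl⟩
            · exact Or.inl ⟨a, ha, rfl⟩
            · exact Or.inr ⟨a, ha, rfl⟩
          · rintro (⟨a, ha, rfl⟩ | ⟨a, ha, rfl⟩)
            · exact ⟨a, Or.inl ha, rfl⟩
            · exact ⟨a, Or.inr ha, rfl⟩
        · obtain ⟨c, hc1, hc2⟩ := real n i (Y.1 ∩ Z.1) ((Y.2.union Z.2).subset (by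
            intro a ha
            simp only [mem_symmDiff, Set.mem_union, mem_inter_iff] at ha ⊢
            tauto))
          refine ⟨c, hc1, fun t => ?_⟩
          rw [hc2]
          constructor
          · rintro ⟨a, ha, rfl⟩
            exact ⟨(mxa n i Y a).2 ha.1, (mxa n i Z a).2 ha.2⟩
          · rintro ⟨h1, h2⟩
            obtain ⟨a, ha, rfl⟩ := (mst n i Y t).1 h1
            exact ⟨a, ⟨ha, (mxa n i Z a).1 h2⟩, rfl⟩
    · intro i hi1 hi2 U W hU' hW'
      obtain ⟨Y, rfl⟩ := (mv n i U).1 hU'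
      obtain ⟨Z, rfl⟩ := (mv n i W).1 hW'
      refine finClass _ _ (Y.2.union Z.2) ?_
      rintro t ⟨h1, h2⟩
      obtain ⟨a, ha, rfl⟩ := (mst n i Y t).1 h1
      refine ⟨a, ?_, rfl⟩
      rw [mxa] at h2
      by_cases h : a ∈ X n i
      · exact Or.inr (Or.inr ⟨h, h2⟩)
      · exact Or.inl (Or.inl ⟨ha, h⟩)
    · intro i j hi1 hi2 hj1 hj2 hij W H hW' hH'
      obtain ⟨Z, rfl⟩ := (mv n i W).1 hW'
      obtain ⟨H, rfl⟩ := (mv n j H).1 hH'
      obtain ⟨U, hU1, hU2⟩ := real (n + 1) (2 * i - 1) (X (n + 1) (2 * i - 1)) (by simp)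
      obtain ⟨U', hU1', hU2'⟩ := real (n + 1) (2 * i) (X (n + 1) (2 * i)) (by simp)
      have hUU : ∀ t, (G.E t U ∨ G.E t U') ↔ ∃ a ∈ X n i, t = G.ev (Rs.xa a) := by
        intro t
        rw [hU2, hU2']
        constructor
        · rintro (⟨a, ha, rfl⟩ | ⟨a, ha, rfl⟩)
          · refine ⟨a, ?_, rfl⟩
            simp only [X, mem_ofPred_eq] at ha ⊢
            rw [r] at ha
            split_ifs at ha <;> omega
          · refine ⟨a, ?_, rfl⟩
            simp only [X, mem_ofPred_eq] at ha ⊢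
            rw [r] at ha
            split_ifs at ha <;> omega
        · rintro ⟨a, ha, rfl⟩
          simp only [X, mem_ofPred_eq] at ha
          by_cases h : n ∈ a.1
          · right
            refine ⟨a, ?_, rfl⟩
            simp only [X, mem_ofPred_eq]
            rw [r, if_pos h]; omega
          · left
            refine ⟨a, ?_, rfl⟩
            simp only [X, mem_ofPred_eq]
            rw [r, if_neg h]; omega
      refine ⟨U, U', hU1, hU1', ?_, ?_⟩
      · refine finClass _ _ Z.2 ?_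
        rintro t ⟨h1, h2⟩
        obtain ⟨a, ha, rfl⟩ := (hUU t).1 h1
        rw [mxa] at h2
        exact ⟨a, Or.inr ⟨ha, h2⟩, rfl⟩
      · refine finClass _ _ H.2 ?_
        rintro t ⟨h1, h2⟩
        obtain ⟨a, ha, rfl⟩ := (hUU t).1 h1
        rw [mxa] at h2
        refine ⟨a, Or.inl ⟨h2, ?_⟩, rfl⟩
        intro h3
        simp only [X, mem_ofPred_eq] at ha h3
        exact hij (ha.symm.trans h3)
    · intro c hc
      have hc' : ∀ i, ∃ Y : Set At, (1 ≤ i → i ≤ 2 ^ n → ((symmDiff Y (X n i)).Finite ∧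
          ∀ a, G.E (G.ev (Rs.xa a)) (c i) ↔ a ∈ Y)) := by
        intro i
        by_cases h : 1 ≤ i ∧ i ≤ 2 ^ n
        · obtain ⟨Y, hY⟩ := (mv n i (c i)).1 (hc i h.1 h.2)
          refine ⟨Y.1, fun _ _ => ⟨Y.2, fun a => ?_⟩⟩
          rw [hY]
          exact mxa n i Y a
        · exact ⟨∅, fun h1 h2 => (h ⟨h1, h2⟩).elim⟩
      choose Y hY using hc'
      have hfin : (⋃ i ∈ Finset.Icc 1 (2 ^ n), symmDiff (Y i) (X n i)).Finite := by
        refine Set.Finite.biUnion (Finset.finite_toSet _) fun i hi => ?_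
        rw [Finset.mem_coe, Finset.mem_Icc] at hi
        exact (hY i hi.1 hi.2).1
      refine finClass _ _ hfin ?_
      rintro t ⟨h1, h2⟩
      obtain ⟨a, rfl⟩ := (mU t).1 h1
      refine ⟨a, ?_, rfl⟩
      have hr1 : 1 ≤ r n a + 1 := by omega
      have hr2 : r n a + 1 ≤ 2 ^ n := r_lt n a
      have h3 := h2 (r n a + 1) hr1 hr2
      rw [(hY _ hr1 hr2).2] at h3
      refine Set.mem_biUnion (Finset.mem_coe.2 (Finset.mem_Icc.2 ⟨hr1, hr2⟩)) (Or.inr ⟨?_, h3⟩)
      simp [X]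

end

/-- The main theorem. -/
theorem main : ∃ (M : Type) (E : M → M → Prop), IsZF E ∧ OmegaStd E ∧
    ∃ A : M, DyadicallyFilterbaseInfinite E A ∧ WeaklyDedekindFinite E A := by
  obtain ⟨N, hN⟩ := exists_names_fam Rs.Q.dsub cn
  obtain ⟨G, _, _⟩ := exists_gen N (fun _ => ∅) (⟨∅, by simp⟩ : Qs.P)
  exact ⟨G.M, G.E, G.isZF, G.omegaStd, G.ev stU, dfi hN,
    wdf (fun a => hN (.inl a)) (hN (.inr (.inl ())))⟩

end Pool.Agent.Lib.MP_211e54_lc
end
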